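import Pool.Agent.Q229.PW.Fin

/-!
# Divisible low-density pinwheel scheduling with durations is in P

Let `f` be the smallest frequency and `P` the total duration of the jobs with frequency `f`.  If
some other job has duration `p` with `P + p > f`, then the instance is not feasible.  Otherwise it
is feasible, if the density is at most `1/10`: time is divided into bins of length `f` starting with
the jobs of frequency `f`, every other job is put into all the bins of a residue class (modulo its
frequency divided by `f`), and the residue classes are chosen greedily, the small jobs (at most
half of the free space of a bin) in one zone and the big jobs in another zone.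
-/

set_option autoImplicit false

namespace Pool.Agent.Results.MP_4842e4_lc.DivisibleLowDensityInP

open Pool.Agent.NPC Q229.PW

/-- There is a constant `0 < α ≤ 2/3`, namely `α = 1/10`, such that feasibility of pinwheel
scheduling with durations is decidable in polynomial time for the instances with frequency
divisibility and density at most `α`.  In fact such an instance is feasible if and only if every job
whose frequency is not the smallest frequency `f` has duration at most `f - P`, where `P` is the
total duration of the jobs with frequency `f`. -/
theorem result :
    (∃ α : ℚ, 0 < α ∧ α ≤ 2 / 3 ∧ InPP (LowDensity α)) ∧
    InPP (LowDensity (1 / 10)) ∧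
    ∀ V : Inst, Valid V → FrequencyDivisibility V → density V ≤ 1 / 10 →
      (Feasible V ↔ ∀ x ∈ V, x.1 ≠ F V → P V + x.2 ≤ F V) :=
  ⟨⟨1 / 10, by norm_num, by norm_num, inP⟩, inP, fun _ hV hd hα => feasible_iff hV hd hα⟩

end Pool.Agent.Results.MP_4842e4_lc.DivisibleLowDensityInP
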